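import Pool.Agent.N569.VT.Defs
import Pool.Agent.H832R3.TW.E

/-!
# Positive outsides (part VT5 of project VT of helper569)
-/

set_option autoImplicit false

namespace Pool.Agent.N359.VT

open Pool.Agent.H891R2.Jones Pool.Agent.W639.RB Pool.Agent.TH561 Pool.Agent.N569.TW Pool.Agent.N569.VT
  Finset LaurentPolynomial

variable {m : ℕ}

/-- VT5 (1) -/
theorem near_closed {P : Type} [Fintype P] [DecidableEq P] (D : Diagram P) (h : D.IsClosed) : Near D := by
  have hp : D.starts.Perm D.ends := by
    rw [List.perm_iff_count]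
    intro a
    rw [(h a).1, (h a).2]
  intro C
  rw [hp.countP_eq]
  omega

/-- VT5 (2) -/
theorem near_knotoid {P : Type} [Fintype P] [DecidableEq P] (D : Diagram P)
    (h : Pool.Agent.H832R3.TW.IsKnotoid D) : Near D := by
  obtain ⟨tail, head, -, h⟩ := h
  have hp : (head :: D.starts).Perm (tail :: D.ends) := by
    rw [List.perm_iff_count]
    intro a
    have aux : ∀ x : P, ((if a = x then 0 else 1) + (if (x == a) = true then 1 else 0) : ℕ) = 1 := by
      intro x
      by_cases h1 : a = x
      · subst h1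
        simp
      · rw [if_neg h1, if_neg (by simpa using fun e => h1 e.symm)]
    rw [List.count_cons, List.count_cons, (h a).1, (h a).2, aux head, aux tail]
  intro C
  have h3 := hp.countP_eq (fun p => C p)
  rw [List.countP_cons, List.countP_cons] at h3
  split_ifs at h3 <;> omega

/-! ### counting the starts and ends of one colour -/

/-- the value of a colour -/
def vl {P : Type} (f : P → Fin 2) (p : P) : ℤ := ((f p : ℕ) : ℤ)

theorem countP_sum {P : Type} (f : P → Fin 2) (l : List P) :
    ((l.countP (fun p => decide (f p = 1)) : ℕ) : ℤ) = (l.map (vl f)).sum := by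
  induction l with
  | nil => simp
  | cons a l ih =>
    rw [List.countP_cons, Nat.cast_add, ih, List.map_cons, List.sum_cons]
    have : f a = 0 ∨ f a = 1 := by omega
    rcases this with h | h
    · simp [h, vl]
    · simp [h, vl]; ring

theorem sum_sub {α : Type} (l : List α) (g h : α → ℤ) :
    (l.map (fun x => g x - h x)).sum = (l.map g).sum - (l.map h).sum := by
  induction l with
  | nil => simp
  | cons a l ih => simp only [List.map_cons, List.sum_cons, ih]; ring

/-- the contribution of a crossing -/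
def wt {P : Type} (f : P → Fin 2) (x : Crossing P) : ℤ :=
  (vl f (if x.underFwd then x.a else x.c) + vl f (if x.overFwd then x.b else x.d)) -
    (vl f (if x.underFwd then x.c else x.a) + vl f (if x.overFwd then x.d else x.b))

theorem sum_add' {α : Type} (l : List α) (g h : α → ℤ) :
    (l.map (fun x => g x + h x)).sum = (l.map g).sum + (l.map h).sum := by
  induction l with
  | nil => simp
  | cons a l ih => simp only [List.map_cons, List.sum_cons, ih]; ring

theorem diff_eq {P : Type} (D : Diagram P) (f : P → Fin 2) :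
    ((D.starts.countP (fun p => decide (f p = 1)) : ℕ) : ℤ) -
      ((D.ends.countP (fun p => decide (f p = 1)) : ℕ) : ℤ) =
      (D.arcs.map (fun x => vl f x.1 - vl f x.2)).sum + (D.crossings.map (wt f)).sum := by
  rw [countP_sum, countP_sum]
  unfold Diagram.starts Diagram.ends wt
  rw [sum_sub, sum_sub, sum_add', sum_add']
  simp only [List.map_append, List.sum_append, List.map_map]
  have e1 : (D.arcs.map (vl f ∘ Prod.fst)).sum = (D.arcs.map (fun x => vl f x.1)).sum := rfl
  have e2 : (D.arcs.map (vl f ∘ Prod.snd)).sum = (D.arcs.map (fun x => vl f x.2)).sum := rfl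
  have e3 : (D.crossings.map (vl f ∘ (fun x => if x.underFwd then x.a else x.c))).sum =
    (D.crossings.map (fun x => vl f (if x.underFwd then x.a else x.c))).sum := rfl
  have e4 : (D.crossings.map (vl f ∘ (fun x => if x.overFwd then x.b else x.d))).sum =
    (D.crossings.map (fun x => vl f (if x.overFwd then x.b else x.d))).sum := rfl
  have e5 : (D.crossings.map (vl f ∘ (fun x => if x.underFwd then x.c else x.a))).sum =
    (D.crossings.map (fun x => vl f (if x.underFwd then x.c else x.a))).sum := rfl
  have e6 : (D.crossings.map (vl f ∘ (fun x => if x.overFwd then x.d else x.b))).sum =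
    (D.crossings.map (fun x => vl f (if x.overFwd then x.d else x.b))).sum := rfl
  rw [e1, e2, e3, e4, e5, e6]
  ring

theorem near_abs {P : Type} (D : Diagram P) (hD : Near D) (f : P → Fin 2) :
    |(D.arcs.map (fun x => vl f x.1 - vl f x.2)).sum + (D.crossings.map (wt f)).sum| ≤ 1 := by
  rw [← diff_eq]
  have h := hD (fun p => decide (f p = 1))
  rw [abs_le]
  constructor <;> omega

theorem vl_inj {P : Type} (f : P → Fin 2) (p q : P) (h : vl f p = vl f q) : f p = f q := by
  unfold vl at h
  exact Fin.ext (by exact_mod_cast h)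

theorem vl_two {P : Type} (f : P → Fin 2) (p q : P) (h : |2 * (vl f p - vl f q)| ≤ 1) : f p = f q := by
  apply vl_inj
  rw [abs_le] at h
  omega

/-- a positive crossing smoothed by `A` contributes nothing -/
theorem wt_A {P : Type} (f : P → Fin 2) (x : Crossing P) (hx : x.sign = 1) (h1 : f x.a = f x.b)
    (h2 : f x.c = f x.d) : wt f x = 0 := by
  have hne : x.underFwd ≠ x.overFwd := by
    intro h
    unfold Crossing.sign at hx
    rw [if_pos h] at hx
    norm_num at hx
  unfold wt vl
  rcases hu : x.underFwd with _ | _ <;> rcases ho : x.overFwd with _ | _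
  · simp_all
  · simp only [h1, h2, if_true, Bool.false_eq_true, if_false]
    ring
  · simp only [h1, h2, if_true, Bool.false_eq_true, if_false]
    ring
  · simp_all

theorem wt_B {P : Type} (f : P → Fin 2) (x : Crossing P) (hx : x.sign = 1) (h1 : f x.b = f x.c)
    (h2 : f x.d = f x.a) : |wt f x| = |2 * (vl f x.a - vl f x.b)| := by
  have hne : x.underFwd ≠ x.overFwd := by
    intro h
    unfold Crossing.sign at hx
    rw [if_pos h] at hx
    norm_num at hx
  unfold wt vl
  rcases hu : x.underFwd with _ | _ <;> rcases ho : x.overFwd with _ | _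
  · simp_all
  · simp only [h1, h2, if_true, Bool.false_eq_true, if_false]
    rw [← abs_neg]
    congr 1
    ring
  · simp only [h1, h2, if_true, Bool.false_eq_true, if_false]
    congr 1
    ring
  · simp_all

/-- the arcs and crossings outside the box, all smoothed by `A` -/
theorem arcs_zero {P : Type} (f : P → Fin 2) (l : List (P × P)) (h : ∀ x ∈ l, f x.1 = f x.2) :
    (l.map (fun x => vl f x.1 - vl f x.2)).sum = 0 := by
  apply List.sum_eq_zero
  intro y hy
  rw [List.mem_map] at hy
  obtain ⟨x, hx, rfl⟩ := hy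
  unfold vl
  rw [h x hx, sub_self]

/-- comparison of the numbers of pieces by colourings with two colours -/
theorem loops_le {P : Type} [Finite P] {P' : Type} [Finite P'] (r : P → P → Prop) (r' : P' → P' → Prop)
    (φ : {c : P → Fin 2 // ∀ p q, r p q → c p = c q} → {c : P' → Fin 2 // ∀ p q, r' p q → c p = c q})
    (hφ : Function.Injective φ) : Nat.card (Quot r) ≤ Nat.card (Quot r') := by
  have h := Nat.card_le_card_of_injective φ hφ
  rw [card_colourings, card_colourings] at h
  exact (Nat.pow_le_pow_iff_right (by norm_num)).1 h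

theorem joined_A {P : Type} (D : Diagram P) (σ : Fin D.crossings.length → Bool) (f : P → Fin 2)
    (hf : ∀ p q, D.Joined σ p q → f p = f q) (j : Fin D.crossings.length) (hj : σ j = true) :
    f (D.crossings[j]).a = f (D.crossings[j]).b ∧ f (D.crossings[j]).c = f (D.crossings[j]).d := by
  constructor
  · refine hf _ _ (Or.inr ⟨j, ?_⟩)
    rw [if_pos hj]
    exact Or.inl ⟨rfl, rfl⟩
  · refine hf _ _ (Or.inr ⟨j, ?_⟩)
    rw [if_pos hj]
    exact Or.inr ⟨rfl, rfl⟩

theorem joined_B {P : Type} (D : Diagram P) (σ : Fin D.crossings.length → Bool) (f : P → Fin 2)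
    (hf : ∀ p q, D.Joined σ p q → f p = f q) (j : Fin D.crossings.length) (hj : σ j = false) :
    f (D.crossings[j]).b = f (D.crossings[j]).c ∧ f (D.crossings[j]).d = f (D.crossings[j]).a := by
  have hj' : ¬ (σ j = true) := by rw [hj]; simp
  constructor
  · refine hf _ _ (Or.inr ⟨j, ?_⟩)
    rw [if_neg hj']
    exact Or.inl ⟨rfl, rfl⟩
  · refine hf _ _ (Or.inr ⟨j, ?_⟩)
    rw [if_neg hj']
    exact Or.inr ⟨rfl, rfl⟩

theorem joined_of {P : Type} (D : Diagram P) (σ : Fin D.crossings.length → Bool) (f : P → Fin 2)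
    (h0 : ∀ x ∈ D.arcs, f x.1 = f x.2)
    (h1 : ∀ j : Fin D.crossings.length, σ j = true →
      f (D.crossings[j]).a = f (D.crossings[j]).b ∧ f (D.crossings[j]).c = f (D.crossings[j]).d)
    (h2 : ∀ j : Fin D.crossings.length, σ j = false →
      f (D.crossings[j]).b = f (D.crossings[j]).c ∧ f (D.crossings[j]).d = f (D.crossings[j]).a) :
    ∀ p q, D.Joined σ p q → f p = f q := by
  rintro p q (h | ⟨j, h⟩)
  · exact h0 _ h
  · by_cases hj : σ j = true
    · rw [if_pos hj] at h
      rcases h with ⟨rfl, rfl⟩ | ⟨rfl, rfl⟩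
      · exact (h1 j hj).1
      · exact (h1 j hj).2
    · rw [if_neg hj] at h
      have hj' : σ j = false := by simpa using hj
      rcases h with ⟨rfl, rfl⟩ | ⟨rfl, rfl⟩
      · exact (h2 j hj').1
      · exact (h2 j hj').2

/-- VT5 (3) for a diagram -/
theorem first_flip' {P : Type} [Fintype P] (D : Diagram P) (hD : Near D) (hpos : ∀ x ∈ D.crossings, x.sign = 1)
    (i : Fin D.crossings.length) :
    D.loops (Function.update (fun _ => true) i false) ≤ D.loops (fun _ => true) := by
  unfold Diagram.loops
  have key : ∀ f : P → Fin 2,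
      (∀ p q, D.Joined (Function.update (fun _ => true) i false) p q → f p = f q) →
      ∀ p q, D.Joined (fun _ => true) p q → f p = f q := by
    intro f hf
    have harc : ∀ x ∈ D.arcs, f x.1 = f x.2 := fun x hx => hf _ _ (Or.inl hx)
    have hA : ∀ j : Fin D.crossings.length, j ≠ i →
        f (D.crossings[j]).a = f (D.crossings[j]).b ∧ f (D.crossings[j]).c = f (D.crossings[j]).d :=
      fun j hj => joined_A D _ f hf j (by rw [Function.update_of_ne hj])
    have hB := joined_B D _ f hf i (by rw [Function.update_self])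
    have hsum : (D.crossings.map (wt f)).sum = wt f D.crossings[i] := by
      rw [← Fin.sum_univ_fun_getElem D.crossings (wt f)]
      refine Finset.sum_eq_single i ?_ (by simp)
      intro j _ hj
      exact wt_A f _ (hpos _ (List.getElem_mem _)) (hA j hj).1 (hA j hj).2
    have h1 := near_abs D hD f
    have hpi : (D.crossings[i]).sign = 1 := hpos _ (List.getElem_mem _)
    rw [arcs_zero f _ harc, hsum, zero_add, wt_B f (D.crossings[i]) hpi hB.1 hB.2] at h1
    have hab := vl_two f _ _ h1
    have hcd : f (D.crossings[i]).c = f (D.crossings[i]).d := by rw [← hB.1, ← hab, ← hB.2]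
    refine joined_of D _ f harc (fun j _ => ?_) (fun j hj => by simp at hj)
    by_cases hj : j = i
    · subst hj
      exact ⟨hab, hcd⟩
    · exact hA j hj
  exact loops_le _ _ (fun c => ⟨c.1, key c.1 c.2⟩)
    (fun c c' h => Subtype.ext (congrArg (fun x => x.1) h))

/-- VT5 (3): the first change of a smoothing does not increase the number of the pieces -/
theorem first_flip
    (lam_nil : ∀ {m : ℕ} (O : Outer m) (σ : Fin O.crossings.length → Bool), (ofO O σ).lam [] = O.close.loops σ)
    (O : Outer m) (hO : Near O.close) (hpos : ∀ x ∈ O.crossings, x.sign = 1)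
    (i : Fin O.crossings.length) :
    (ofO O (Function.update (fun _ => true) i false)).lam [] ≤ (ofO O (fun _ => true)).lam [] := by
  rw [lam_nil, lam_nil]
  exact first_flip' O.close hO hpos i

/-- an exchange of two pairs of joined points at most doubles the number of colourings -/
theorem exch_card {Q : Type} [Fintype Q] (V : AddSubgroup (Q → Fin 2)) (a b c d : Q) :
    Nat.card {f : Q → Fin 2 // f ∈ V ∧ f b = f c ∧ f d = f a} ≤
      2 * Nat.card {f : Q → Fin 2 // f ∈ V ∧ f a = f b ∧ f c = f d} := by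
  classical
  rw [Nat.card_eq_fintype_card, Nat.card_eq_fintype_card, Fintype.card_subtype, Fintype.card_subtype]
  set A : Finset (Q → Fin 2) := {f | f ∈ V ∧ f a = f b ∧ f c = f d} with hA
  set B : Finset (Q → Fin 2) := {f | f ∈ V ∧ f b = f c ∧ f d = f a} with hB
  have hsplit : B = (B.filter (fun f => f a = f b)) ∪ (B.filter (fun f => ¬ f a = f b)) :=
    (Finset.filter_union_filter_not_eq _ _).symm
  have h1 : #(B.filter (fun f => f a = f b)) ≤ #A := by
    apply Finset.card_le_card
    intro f hf
    simp only [hB, hA, Finset.mem_filter, Finset.mem_univ, true_and] at hf ⊢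
    exact ⟨hf.1.1, hf.2, by rw [← hf.1.2.1, ← hf.2, hf.1.2.2]⟩
  have h2 : #(B.filter (fun f => ¬ f a = f b)) ≤ #A := by
    rcases (B.filter (fun f => ¬ f a = f b)).eq_empty_or_nonempty with h0 | ⟨g, hg⟩
    · rw [h0]
      simp
    · refine Finset.card_le_card_of_injOn (fun f => f + g) ?_ (fun f _ f' _ h => add_right_cancel h)
      intro f hf
      simp only [hB, hA, Finset.coe_filter, Finset.mem_filter, Finset.mem_univ, true_and,
        Set.mem_ofPred_eq] at hf hg ⊢
      refine ⟨V.add_mem hf.1.1 hg.1.1, ?_, ?_⟩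
      · simp only [Pi.add_apply]
        have e1 := hf.2
        have e2 := hg.2
        revert e1 e2
        generalize f a = x1
        generalize f b = x2
        generalize g a = x3
        generalize g b = x4
        decide +revert
      · simp only [Pi.add_apply]
        rw [← hf.1.2.1, ← hg.1.2.1, hf.1.2.2, hg.1.2.2]
        have e1 := hf.2
        have e2 := hg.2
        revert e1 e2
        generalize f a = x1
        generalize f b = x2
        generalize g a = x3
        generalize g b = x4
        decide +revert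
  calc #B ≤ #(B.filter (fun f => f a = f b)) + #(B.filter (fun f => ¬ f a = f b)) := by
        conv_lhs => rw [hsplit]
        exact Finset.card_union_le _ _
    _ ≤ 2 * #A := by omega

/-- the colourings which satisfy all relations but those at the crossing `i` -/
def sub {P : Type} (D : Diagram P) (σ : Fin D.crossings.length → Bool) (i : Fin D.crossings.length) :
    AddSubgroup (P → Fin 2) where
  carrier := {f | (∀ x ∈ D.arcs, f x.1 = f x.2) ∧
    (∀ j : Fin D.crossings.length, j ≠ i → σ j = true →
      f (D.crossings[j]).a = f (D.crossings[j]).b ∧ f (D.crossings[j]).c = f (D.crossings[j]).d) ∧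
    (∀ j : Fin D.crossings.length, j ≠ i → σ j = false →
      f (D.crossings[j]).b = f (D.crossings[j]).c ∧ f (D.crossings[j]).d = f (D.crossings[j]).a)}
  zero_mem' := ⟨fun _ _ => rfl, fun _ _ _ => ⟨rfl, rfl⟩, fun _ _ _ => ⟨rfl, rfl⟩⟩
  add_mem' := by
    rintro f g ⟨h1, h2, h3⟩ ⟨k1, k2, k3⟩
    refine ⟨fun x hx => ?_, fun j hj hs => ⟨?_, ?_⟩, fun j hj hs => ⟨?_, ?_⟩⟩ <;>
      simp only [Pi.add_apply]
    · rw [h1 x hx, k1 x hx]
    · rw [(h2 j hj hs).1, (k2 j hj hs).1]
    · rw [(h2 j hj hs).2, (k2 j hj hs).2]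
    · rw [(h3 j hj hs).1, (k3 j hj hs).1]
    · rw [(h3 j hj hs).2, (k3 j hj hs).2]
  neg_mem' := by
    rintro f ⟨h1, h2, h3⟩
    refine ⟨fun x hx => ?_, fun j hj hs => ⟨?_, ?_⟩, fun j hj hs => ⟨?_, ?_⟩⟩ <;>
      simp only [Pi.neg_apply]
    · rw [h1 x hx]
    · rw [(h2 j hj hs).1]
    · rw [(h2 j hj hs).2]
    · rw [(h3 j hj hs).1]
    · rw [(h3 j hj hs).2]

/-- VT5 (4) for a diagram -/
theorem flip' {P : Type} [Fintype P] (D : Diagram P) (σ : Fin D.crossings.length → Bool)
    (i : Fin D.crossings.length) (hi : σ i = true) :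
    D.loops (Function.update σ i false) ≤ D.loops σ + 1 := by
  unfold Diagram.loops
  have h := exch_card (sub D σ i) (D.crossings[i]).a (D.crossings[i]).b (D.crossings[i]).c (D.crossings[i]).d
  have e1 : Nat.card {f : P → Fin 2 // f ∈ sub D σ i ∧ f (D.crossings[i]).b = f (D.crossings[i]).c ∧
      f (D.crossings[i]).d = f (D.crossings[i]).a} =
      2 ^ Nat.card (Quot (D.Joined (Function.update σ i false))) := by
    rw [← card_colourings]
    apply Nat.card_congr
    apply Equiv.subtypeEquivRight
    intro f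
    constructor
    · rintro ⟨⟨h1, h2, h3⟩, h4⟩
      refine joined_of D _ f h1 (fun j hj => ?_) (fun j hj => ?_)
      · by_cases hji : j = i
        · subst hji
          rw [Function.update_self] at hj
          simp at hj
        · rw [Function.update_of_ne hji] at hj
          exact h2 j hji hj
      · by_cases hji : j = i
        · subst hji
          exact h4
        · rw [Function.update_of_ne hji] at hj
          exact h3 j hji hj
    · intro hf
      refine ⟨⟨fun x hx => hf _ _ (Or.inl hx), fun j hj hs => joined_A D _ f hf j ?_,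
        fun j hj hs => joined_B D _ f hf j ?_⟩, joined_B D _ f hf i ?_⟩
      · rw [Function.update_of_ne hj, hs]
      · rw [Function.update_of_ne hj, hs]
      · rw [Function.update_self]
  have e2 : Nat.card {f : P → Fin 2 // f ∈ sub D σ i ∧ f (D.crossings[i]).a = f (D.crossings[i]).b ∧
      f (D.crossings[i]).c = f (D.crossings[i]).d} = 2 ^ Nat.card (Quot (D.Joined σ)) := by
    rw [← card_colourings]
    apply Nat.card_congr
    apply Equiv.subtypeEquivRight
    intro f
    constructor
    · rintro ⟨⟨h1, h2, h3⟩, h4⟩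
      refine joined_of D _ f h1 (fun j hj => ?_) (fun j hj => ?_)
      · by_cases hji : j = i
        · subst hji
          exact h4
        · exact h2 j hji hj
      · by_cases hji : j = i
        · subst hji
          rw [hi] at hj
          simp at hj
        · exact h3 j hji hj
    · intro hf
      exact ⟨⟨fun x hx => hf _ _ (Or.inl hx), fun j hj hs => joined_A D _ f hf j hs,
        fun j hj hs => joined_B D _ f hf j hs⟩, joined_A D _ f hf i hi⟩
  rw [e1, e2, ← pow_succ'] at h
  exact (Nat.pow_le_pow_iff_right (by norm_num)).1 h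

/-- VT5 (4): every change of a smoothing increases the number of the pieces at most by `1` -/
theorem flip
    (lam_nil : ∀ {m : ℕ} (O : Outer m) (σ : Fin O.crossings.length → Bool), (ofO O σ).lam [] = O.close.loops σ)
    (O : Outer m) (σ : Fin O.crossings.length → Bool) (i : Fin O.crossings.length) (hi : σ i = true) :
    (ofO O (Function.update σ i false)).lam [] ≤ (ofO O σ).lam [] + 1 := by
  rw [lam_nil, lam_nil]
  exact flip' O.close σ i hi

/-- VT5 (5): a generator in the box -/
theorem first_e
    (lam_nil : ∀ {m : ℕ} (O : Outer m) (σ : Fin O.crossings.length → Bool), (ofO O σ).lam [] = O.close.loops σ)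
    (O : Outer m) (hO : Near O.close) (hup : ∀ j, O.up j = true) (hpos : ∀ x ∈ O.crossings, x.sign = 1)
    (i : ℕ) (hi : i + 1 < m) : (ofO O (fun _ => true)).lam [i] ≤ (ofO O (fun _ => true)).lam [] := by
  rw [lam_nil]
  unfold Lk.lam Lk.loops Diagram.loops
  set X := ofO O (fun _ => true) with hX
  set Z := X.mul (Lk.word m [i]) with hZ
  have hr : ∀ c : Z.Q → Fin 2, (∀ p q, Z.Rc p q → c p = c q) →
      (∀ j : Fin m, c (Sum.inl (O.lower j)) = c (Sum.inr (Sum.inl (Sum.inl j)))) ∧
      (∀ j : Fin m, c (Sum.inr (Sum.inl (Sum.inr j))) = c (Sum.inr (Sum.inr j))) ∧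
      (∀ j : Fin m, c (Sum.inl (O.upper j)) = c (Sum.inr (Sum.inr j))) ∧
      (c (Sum.inr (Sum.inl (Sum.inl ⟨i, Nat.lt_of_succ_lt hi⟩))) =
        c (Sum.inr (Sum.inl (Sum.inl ⟨i+1, hi⟩)))) ∧
      (c (Sum.inr (Sum.inl (Sum.inr ⟨i, Nat.lt_of_succ_lt hi⟩))) =
        c (Sum.inr (Sum.inl (Sum.inr ⟨i+1, hi⟩)))) ∧
      (∀ j : Fin m, (j : ℕ) ≠ i → (j : ℕ) ≠ i + 1 →
        c (Sum.inr (Sum.inl (Sum.inl j))) = c (Sum.inr (Sum.inl (Sum.inr j)))) ∧
      (∀ p q : O.P, (⟨O.arcs, O.crossings⟩ : Diagram O.P).Joined (fun _ => true) p q →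
        c (Sum.inl p) = c (Sum.inl q)) := by
    intro c hc
    refine ⟨fun j => ?_, fun j => ?_, fun j => ?_, ?_, ?_, fun j h1 h2 => ?_, fun p q h => ?_⟩
    · exact hc _ _ (Or.inl (Or.inr (Or.inr ⟨j, rfl, rfl⟩)))
    · exact hc _ _ (Or.inl (Or.inr (Or.inl ⟨_, _, rfl, rfl, Or.inr (Or.inr ⟨j, rfl, rfl⟩)⟩)))
    · exact hc _ _ (Or.inr ⟨j, rfl, rfl⟩)
    · exact hc _ _ (Or.inl (Or.inr (Or.inl ⟨_, _, rfl, rfl, Or.inl ⟨_, _, rfl, rfl, Or.inl ⟨hi, rfl, rfl⟩⟩⟩)))
    · exact hc _ _ (Or.inl (Or.inr (Or.inl ⟨_, _, rfl, rfl, Or.inl ⟨_, _, rfl, rfl,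
        Or.inr (Or.inl ⟨hi, rfl, rfl⟩)⟩⟩)))
    · exact hc _ _ (Or.inl (Or.inr (Or.inl ⟨_, _, rfl, rfl, Or.inl ⟨_, _, rfl, rfl,
        Or.inr (Or.inr ⟨j, h1, h2, rfl, rfl⟩)⟩⟩)))
    · exact hc _ _ (Or.inl (Or.inl ⟨p, q, rfl, rfl, h⟩))
  have key : ∀ c : Z.Q → Fin 2, (∀ p q, Z.Rc p q → c p = c q) →
      ∀ p q, O.close.Joined (fun _ => true) p q → c (Sum.inl p) = c (Sum.inl q) := by
    intro c hc
    obtain ⟨k1, k2, k3, k4, k5, k6, k7⟩ := hr c hc
    set f : O.P → Fin 2 := fun p => c (Sum.inl p) with hf
    have hne : ∀ j : Fin m, (j : ℕ) ≠ i → (j : ℕ) ≠ i + 1 → f (O.lower j) = f (O.upper j) := by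
      intro j h1 h2
      show c _ = c _
      rw [k1, k6 j h1 h2, k2, k3]
    have hlo : f (O.lower ⟨i, Nat.lt_of_succ_lt hi⟩) = f (O.lower ⟨i+1, hi⟩) := by
      show c _ = c _
      rw [k1, k4, k1]
    have hupp : f (O.upper ⟨i, Nat.lt_of_succ_lt hi⟩) = f (O.upper ⟨i+1, hi⟩) := by
      show c _ = c _
      rw [k3, k3, ← k2, ← k2, k5]
    have h7A : ∀ j : Fin O.crossings.length,
        f (O.crossings[j]).a = f (O.crossings[j]).b ∧ f (O.crossings[j]).c = f (O.crossings[j]).d :=
      fun j => joined_A (⟨O.arcs, O.crossings⟩ : Diagram O.P) (fun _ => true) f k7 j rfl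
    have h7r : ∀ x ∈ O.arcs, f x.1 = f x.2 := fun x hx => k7 _ _ (Or.inl hx)
    have hcr : (O.close.crossings.map (wt f)).sum = 0 := by
      change (O.crossings.map (wt f)).sum = 0
      rw [← Fin.sum_univ_fun_getElem O.crossings (wt f)]
      refine Finset.sum_eq_zero ?_
      intro j _
      exact wt_A f _ (hpos _ (List.getElem_mem _)) (h7A j).1 (h7A j).2
    have harcs : (O.close.arcs.map (fun x => vl f x.1 - vl f x.2)).sum =
        2 * (vl f (O.lower ⟨i, Nat.lt_of_succ_lt hi⟩) - vl f (O.upper ⟨i, Nat.lt_of_succ_lt hi⟩)) := by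
      have e0 : O.close.arcs = O.arcs ++ (List.finRange m).map (fun j => (O.lower j, O.upper j)) := by
        unfold Outer.close
        simp only [hup, if_true]
      rw [e0, List.map_append, List.sum_append, arcs_zero f _ h7r, zero_add, List.map_map]
      have e1 : ((List.finRange m).map ((fun x : O.P × O.P => vl f x.1 - vl f x.2) ∘
          fun j => (O.lower j, O.upper j))).sum = ∑ j : Fin m, (vl f (O.lower j) - vl f (O.upper j)) := by
        rw [← List.sum_ofFn, List.ofFn_eq_map]
        rfl
      rw [e1]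
      have hij : (⟨i, Nat.lt_of_succ_lt hi⟩ : Fin m) ≠ ⟨i+1, hi⟩ := by
        intro h
        simp at h
      rw [Finset.sum_eq_add_of_mem (⟨i, Nat.lt_of_succ_lt hi⟩ : Fin m) ⟨i+1, hi⟩ (Finset.mem_univ _)
        (Finset.mem_univ _) hij]
      · unfold vl
        rw [← hlo, ← hupp]
        ring
      · intro j _ hj
        unfold vl
        rw [hne j (fun h => hj.1 (Fin.ext h)) (fun h => hj.2 (Fin.ext h)), sub_self]
    have h1 := near_abs O.close hO f
    rw [hcr, add_zero, harcs] at h1
    have hab := vl_two f _ _ h1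
    have hall : ∀ j : Fin m, f (O.lower j) = f (O.upper j) := by
      intro j
      by_cases h1 : (j : ℕ) = i
      · have : j = ⟨i, Nat.lt_of_succ_lt hi⟩ := Fin.ext h1
        rw [this]
        exact hab
      · by_cases h2 : (j : ℕ) = i + 1
        · have : j = ⟨i+1, hi⟩ := Fin.ext h2
          rw [this, ← hlo, ← hupp]
          exact hab
        · exact hne j h1 h2
    refine joined_of O.close _ f ?_ (fun j _ => h7A j) (fun j hj => by simp at hj)
    intro x hx
    have e0 : O.close.arcs = O.arcs ++ (List.finRange m).map (fun j => (O.lower j, O.upper j)) := by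
      unfold Outer.close
      simp only [hup, if_true]
    rw [e0, List.mem_append] at hx
    rcases hx with hx | hx
    · exact h7r x hx
    · rw [List.mem_map] at hx
      obtain ⟨j, -, rfl⟩ := hx
      exact hall j
  refine loops_le _ _ (fun c => ⟨fun p => c.1 (Sum.inl p), key c.1 c.2⟩) ?_
  intro c c' h
  have h0 : ∀ p, c.1 (Sum.inl p) = c'.1 (Sum.inl p) := by
    intro p
    exact congrFun (congrArg (fun x => x.1) h) p
  obtain ⟨k1, k2, k3, -, -, -, -⟩ := hr c.1 c.2
  obtain ⟨l1, l2, l3, -, -, -, -⟩ := hr c'.1 c'.2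
  apply Subtype.ext
  funext z
  rcases z with p | (z | j) | j
  · exact h0 p
  · exact (k1 z).symm.trans ((h0 _).trans (l1 z))
  · exact (k2 j).trans ((k3 j).symm.trans ((h0 _).trans ((l3 j).trans (l2 j).symm)))
  · exact (k3 j).symm.trans ((h0 _).trans (l3 j))

end Pool.Agent.N359.VT
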